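import Pool.Agent.W983.PL.Stm

/-!
# Positions of unseparated sets with respect to the base leaves
-/

set_option autoImplicit false
open Set Topology

namespace Pool.Agent.W589.PCD2

open Pool.Agent.W983.PL

/-- a point of the arc `[a, b]` outside the open interval `(c, d)` -/
theorem off {t c d : ℝ} (h1 : c < t) (h2 : t < d) : E t ∉ arc d (c + 1) := by
  rintro ⟨s, ⟨hs1, hs2⟩, hs⟩
  have : s = t := E_injOn (a := t) (by linarith) (by linarith) le_rfl (by linarith) hs
  linarith

theorem inn {t p q c d : ℝ} (hpq : q < p + 1) (ht1 : p ≤ t) (ht2 : t ≤ q) (hc : p ≤ c)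
    (hd : d ≤ q) (h : E t ∈ arc c d) : t ∈ Icc c d := by
  obtain ⟨s, ⟨hs1, hs2⟩, hs⟩ := h
  have : s = t := E_injOn (a := p) (by linarith) (by linarith) ht1 (by linarith) hs
  rw [← this]
  exact ⟨hs1, hs2⟩

/-- pulling back an unseparated set to an interval -/
theorem pull {p q : ℝ} {good : Set ℝ} {ψ : ℝ → ℝ} {𝓕 : Set (ℝ × ℝ)} (hF : FillOK p q good ψ 𝓕)
    (hpq : q < p + 1) (V : Set Circle) (hV : UnsB 𝓕 V) :
    (∃ a m b, (a, m) ∈ 𝓕 ∧ (m, b) ∈ 𝓕 ∧ {t | t ∈ Icc p q ∧ E t ∈ V} ⊆ {a, m, b}) ∨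
      (∀ s ∈ {t | t ∈ Icc p q ∧ E t ∈ V}, ∀ t ∈ {t | t ∈ Icc p q ∧ E t ∈ V}, ψ s = ψ t) := by
  refine hF.cls _ (fun t ht => ht.1) fun I hI => ?_
  obtain ⟨r1, r2, r3, _, _⟩ := hF.rng I hI
  rcases hV I hI with h | h
  · left
    rintro t ⟨⟨ht1, ht2⟩, ht⟩
    exact inn hpq ht1 ht2 r1 r3 (h ht)
  · right
    rintro t ⟨⟨ht1, ht2⟩, ht⟩
    by_cases h1 : t ≤ I.1
    · exact Or.inl ⟨ht1, h1⟩
    · by_cases h2 : I.2 ≤ t
      · exact Or.inr ⟨h2, ht2⟩
      · push Not at h1 h2
        exact absurd (h ht) (off h1 h2)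

theorem d2 (hBC : S_BC) (hPOS : S_POS) : S_D2 := by
  intro F g Z η ρ ψ 𝓐 𝓑 D V hV
  obtain ⟨P1, P2, P3, P4, P5, P6, P7⟩ := hPOS F Z η ρ D.gen.lift D.cuts
  obtain ⟨B1, B2, -⟩ := hBC
  have hA : UnsB 𝓐 V := fun I hI => hV I (Or.inl (Or.inr hI))
  have hB : UnsB 𝓑 V := fun I hI => hV I (Or.inr hI)
  have hleaf : ∀ k, V ⊆ arc (η k) (ρ k) ∨ V ⊆ arc (ρ k) (η k + 1) := fun k =>
    hV (η k, ρ k) (Or.inl (Or.inl ⟨k, rfl⟩))
  have e0 := P5 0
  have r0 := P6 0
  rcases hleaf 0 with h0 | h0
  · -- case B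
    by_cases hall : ∀ k, V ⊆ arc (η k) (ρ k)
    · -- all leaves
      have hsur : ∀ z ∈ V, ∃ t, t ∈ Icc (1 / 8 : ℝ) (7 / 8) ∧ E t = z := by
        intro z hz
        obtain ⟨t, ⟨ht1, ht2⟩, ht⟩ := h0 hz
        have hk : ∀ k, t ∈ Icc (η k) (ρ k) := by
          intro k
          obtain ⟨s, ⟨hs1, hs2⟩, hs⟩ := hall k hz
          have h5 := P5 k
          have h6 := P6 k
          have h7 : η 0 ≤ η k := monotone_nat_of_le_succ (fun n => (P3 n).le) (Nat.zero_le k)
          have h8 : ρ k ≤ ρ 0 := antitone_nat_of_succ_le (fun n => (P4 n).le) (Nat.zero_le k)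
          have : s = t := E_injOn (a := η 0) (by linarith) (by linarith) ht1 (by linarith)
            (hs.trans ht.symm)
          rw [← this]
          exact ⟨hs1, hs2⟩
        refine ⟨t, ⟨?_, ?_⟩, ht⟩
        · by_contra hcon
          push Not at hcon
          obtain ⟨N, hN⟩ := P7 (1 / 8 - t) (by linarith)
          have h1 := (hN N le_rfl).1
          have h2 := (hk N).1
          linarith
        · by_contra hcon
          push Not at hcon
          obtain ⟨N, hN⟩ := P7 (t - 7 / 8) (by linarith)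
          have h1 := (hN N le_rfl).2
          have h2 := (hk N).2
          linarith
      rcases pull D.fb (by norm_num) V hB with ⟨a, m, b, h1, h2, h3⟩ | h1
      · right; left
        refine ⟨E a, E m, E b, fun z hz => ?_, ?_⟩
        · obtain ⟨t, ht, rfl⟩ := hsur z hz
          have := h3 (show t ∈ {t | t ∈ Icc (1 / 8 : ℝ) (7 / 8) ∧ E t ∈ V} from ⟨ht, hz⟩)
          rcases this with rfl | rfl | rfl
          · exact Or.inl rfl
          · exact Or.inr (Or.inl rfl)
          · exact Or.inr (Or.inr rfl)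
        · intro z hz
          rcases hz with rfl | rfl | rfl
          · exact ⟨(a, m), Or.inr h1, Or.inl rfl⟩
          · exact ⟨(a, m), Or.inr h1, Or.inr rfl⟩
          · exact ⟨(m, b), Or.inr h2, Or.inr rfl⟩
      · -- collapsed
        by_cases hsub : V.Subsingleton
        · exact Or.inl hsub
        · right; right
          rw [Set.not_subsingleton_iff] at hsub
          obtain ⟨z, hz, w, hw, hzw⟩ := hsub
          have hst : ∃ s t, s < t ∧ (s ∈ Icc (1 / 8 : ℝ) (7 / 8) ∧ E s ∈ V) ∧
              (t ∈ Icc (1 / 8 : ℝ) (7 / 8) ∧ E t ∈ V) := by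
            obtain ⟨s, hs, rfl⟩ := hsur z hz
            obtain ⟨t, ht, rfl⟩ := hsur w hw
            rcases lt_trichotomy s t with h | h | h
            · exact ⟨s, t, h, ⟨hs, hz⟩, ⟨ht, hw⟩⟩
            · exact absurd (by rw [h]) hzw
            · exact ⟨t, s, h, ⟨ht, hw⟩, ⟨hs, hz⟩⟩
          obtain ⟨s, t, hst, hs, ht⟩ := hst
          -- two points of V' lie in one interval
          have hpair : ∀ u ∈ {t | t ∈ Icc (1 / 8 : ℝ) (7 / 8) ∧ E t ∈ V},
              ∀ v ∈ {t | t ∈ Icc (1 / 8 : ℝ) (7 / 8) ∧ E t ∈ V}, u ≠ v → ∃ k,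
                (u ∈ Icc (xl F ρ k) (xr F η k) ∧ v ∈ Icc (xl F ρ k) (xr F η k)) ∨
                (u ∈ Icc (al F η k) (ar F ρ k) ∧ v ∈ Icc (al F η k) (ar F ρ k)) := by
            intro u hu v hv huv
            rcases lt_or_gt_of_ne huv with h | h
            · obtain ⟨k, hk | hk⟩ := D.col u v hu.1.1 h hv.1.2 (h1 u hu v hv)
              · exact ⟨k, Or.inl ⟨⟨hk.1, by linarith [hk.2]⟩, ⟨by linarith [hk.1], hk.2⟩⟩⟩
              · exact ⟨k, Or.inr ⟨⟨hk.1, by linarith [hk.2]⟩, ⟨by linarith [hk.1], hk.2⟩⟩⟩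
            · obtain ⟨k, hk | hk⟩ := D.col v u hv.1.1 h hu.1.2 (h1 v hv u hu)
              · exact ⟨k, Or.inl ⟨⟨by linarith [hk.1], hk.2⟩, ⟨hk.1, by linarith [hk.2]⟩⟩⟩
              · exact ⟨k, Or.inr ⟨⟨by linarith [hk.1], hk.2⟩, ⟨hk.1, by linarith [hk.2]⟩⟩⟩
          -- disjointness
          have dx : ∀ j k, j < k → ∀ u, u ∈ Icc (xl F ρ j) (xr F η j) →
              u ∈ Icc (xl F ρ k) (xr F η k) → False := by
            intro j k hjk u h2 h3
            have := B2 j k hjk
            have h4 := P1 j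
            have h5 := P1 k
            linarith [h2.1, h3.2]
          have da : ∀ j k, j < k → ∀ u, u ∈ Icc (al F η j) (ar F ρ j) →
              u ∈ Icc (al F η k) (ar F ρ k) → False := by
            intro j k hjk u h2 h3
            have := B2 j k hjk
            have h4 := P2 j
            have h5 := P2 k
            linarith [h2.2, h3.1]
          have dxa : ∀ j k, ∀ u, u ∈ Icc (xl F ρ j) (xr F η j) →
              u ∈ Icc (al F η k) (ar F ρ k) → False := by
            intro j k u h2 h3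
            have h4 := P1 j
            have h5 := P2 k
            have h6 := B1 j
            have h7 := B1 k
            linarith [h2.2, h3.1, h6.1, h7.1]
          obtain ⟨k, hk | hk⟩ := hpair s hs t ht (ne_of_lt hst)
          · refine ⟨(k, true), ?_⟩
            unfold InD
            simp only [if_true]
            left
            intro z hz
            obtain ⟨u, hu, rfl⟩ := hsur z hz
            by_cases hus : u = s
            · rw [hus]; exact ⟨s, hk.1, rfl⟩
            · obtain ⟨j, hj | hj⟩ := hpair u ⟨hu, hz⟩ s hs hus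
              · rcases lt_trichotomy j k with h | h | h
                · exact (dx j k h s hj.2 hk.1).elim
                · rw [h] at hj; exact ⟨u, hj.1, rfl⟩
                · exact (dx k j h s hk.1 hj.2).elim
              · exact (dxa k j s hk.1 hj.2).elim
          · refine ⟨(k, true), ?_⟩
            unfold InD
            simp only [if_true]
            right
            intro z hz
            obtain ⟨u, hu, rfl⟩ := hsur z hz
            by_cases hus : u = s
            · rw [hus]; exact ⟨s, hk.1, rfl⟩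
            · obtain ⟨j, hj | hj⟩ := hpair u ⟨hu, hz⟩ s hs hus
              · exact (dxa j k s hj.2 hk.1).elim
              · rcases lt_trichotomy j k with h | h | h
                · exact (da j k h s hj.2 hk.1).elim
                · rw [h] at hj; exact ⟨u, hj.1, rfl⟩
                · exact (da k j h s hk.1 hj.2).elim
    · -- the first leaf which is not passed
      classical
      push Not at hall
      have hfind := Nat.find_spec hall
      have hmin := fun m => Nat.find_min hall (m := m)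
      generalize Nat.find hall = K at hfind hmin
      cases K with
      | zero => exact absurd h0 hfind
      | succ k =>
        have hk : V ⊆ arc (η k) (ρ k) := by
          by_contra hcon
          exact hmin k (Nat.lt_succ_self k) hcon
        have hk1 : V ⊆ arc (ρ (k + 1)) (η (k + 1) + 1) := (hleaf (k + 1)).resolve_left hfind
        right; right
        refine ⟨(k, false), ?_⟩
        unfold InD
        simp only [Bool.false_eq_true, if_false]
        intro z hz
        obtain ⟨t, ⟨ht1, ht2⟩, rfl⟩ := hk hz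
        by_cases h1 : t ≤ η (k + 1)
        · exact Or.inl ⟨t, ⟨ht1, h1⟩, rfl⟩
        · by_cases h2 : ρ (k + 1) ≤ t
          · exact Or.inr ⟨t, ⟨h2, ht2⟩, rfl⟩
          · push Not at h1 h2
            exact absurd (hk1 hz) (off h1 h2)
  · -- case A
    have hsur : ∀ z ∈ V, ∃ t, t ∈ Icc (ρ 0 - 1) (η 0) ∧ E t = z := by
      intro z hz
      obtain ⟨s, ⟨hs1, hs2⟩, hs⟩ := h0 hz
      refine ⟨s - 1, ⟨by linarith, by linarith⟩, ?_⟩
      rw [← hs, ← E_add_one (s - 1), sub_add_cancel]
    rcases pull D.fa (by linarith [e0.2, r0.1]) V hA with ⟨a, m, b, h1, h2, h3⟩ | h1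
    · right; left
      refine ⟨E a, E m, E b, fun z hz => ?_, ?_⟩
      · obtain ⟨t, ht, rfl⟩ := hsur z hz
        have := h3 (show t ∈ {t | t ∈ Icc (ρ 0 - 1) (η 0) ∧ E t ∈ V} from ⟨ht, hz⟩)
        rcases this with rfl | rfl | rfl
        · exact Or.inl rfl
        · exact Or.inr (Or.inl rfl)
        · exact Or.inr (Or.inr rfl)
      · intro z hz
        rcases hz with rfl | rfl | rfl
        · exact ⟨(a, m), Or.inl (Or.inr h1), Or.inl rfl⟩
        · exact ⟨(a, m), Or.inl (Or.inr h1), Or.inr rfl⟩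
        · exact ⟨(m, b), Or.inl (Or.inr h2), Or.inr rfl⟩
    · left
      intro z hz w hw
      obtain ⟨s, hs, rfl⟩ := hsur z hz
      obtain ⟨t, ht, rfl⟩ := hsur w hw
      have : id s = id t := h1 s ⟨hs, hz⟩ t ⟨ht, hw⟩
      rw [show s = t from this]

end Pool.Agent.W589.PCD2
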